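import Pool.Agent.Work.MP_3242df_tp.Def

/-!
# Block T1: the inequality on the line
-/

open MeasureTheory Matrix Finset

open scoped ComplexOrder

namespace Pool.Agent.Work.MP_3242df_tp

namespace T1

/-- The Gram matrix on an interval. -/
noncomputable def grm {N : ℕ} (u : ℝ → Fin N → ℂ) (a b : ℝ) : Mat N :=
  Matrix.of fun i j => ∫ y in a..b, u y i * star (u y j)

lemma cij {N : ℕ} {u : ℝ → Fin N → ℂ} (hu : ∀ i, Continuous fun y => u y i) (i j : Fin N) :
    Continuous fun y => u y i * star (u y j) := (hu i).mul (hu j).star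

lemma grm_psd {N : ℕ} (u : ℝ → Fin N → ℂ) (hu : ∀ i, Continuous fun y => u y i) {a b : ℝ}
    (hab : a ≤ b) : (grm u a b).PosSemidef := by
  refine Matrix.PosSemidef.of_dotProduct_mulVec_nonneg ?_ ?_
  · ext i j
    simp only [grm, Matrix.conjTranspose_apply, Matrix.of_apply]
    rw [intervalIntegral.integral_of_le hab, intervalIntegral.integral_of_le hab]
    have h := integral_conj (𝕜 := ℂ) (μ := volume.restrict (Set.Ioc a b))
      (f := fun y => u y j * star (u y i))
    rw [← starRingEnd_apply, ← h]
    apply integral_congr_ae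
    filter_upwards with y
    rw [map_mul, starRingEnd_apply, starRingEnd_apply, star_star, mul_comm]
  · intro v
    have h1 : star v ⬝ᵥ (grm u a b *ᵥ v) =
        ∫ y in a..b, ((‖∑ i, star (v i) * u y i‖ ^ 2 : ℝ) : ℂ) := by
      have h2 : ∀ y, ((‖∑ i, star (v i) * u y i‖ ^ 2 : ℝ) : ℂ) =
          ∑ i, ∑ j, star (v i) * (u y i * star (u y j)) * v j := by
        intro y
        have h3 : ((‖∑ i, star (v i) * u y i‖ ^ 2 : ℝ) : ℂ) =
            (∑ i, star (v i) * u y i) * star (∑ j, star (v j) * u y j) := by
          rw [← starRingEnd_apply, Complex.mul_conj, Complex.normSq_eq_norm_sq]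
        rw [h3, star_sum, Finset.sum_mul_sum]
        refine Finset.sum_congr rfl fun i _ => Finset.sum_congr rfl fun j _ => ?_
        rw [star_mul', star_star]
        ring
      rw [intervalIntegral.integral_congr (fun y _ => h2 y), intervalIntegral.integral_finsetSum]
      · simp only [dotProduct, mulVec, grm, Matrix.of_apply, Finset.mul_sum, Pi.star_apply]
        refine Finset.sum_congr rfl fun i _ => ?_
        rw [intervalIntegral.integral_finsetSum]
        · refine Finset.sum_congr rfl fun j _ => ?_
          rw [intervalIntegral.integral_mul_const, intervalIntegral.integral_const_mul, mul_assoc]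
        · intro j _
          exact (((cij hu i j).const_mul _).mul_const _).intervalIntegrable _ _
      · intro i _
        exact (continuous_finsetSum _ fun j _ =>
          ((cij hu i j).const_mul _).mul_const _).intervalIntegrable _ _
    rw [h1, intervalIntegral.integral_ofReal, Complex.zero_le_real]
    exact intervalIntegral.integral_nonneg hab fun y _ => by positivity

lemma icc_int {f : ℝ → ℝ} {R : ℝ} (hR : 0 < R) (h : ∀ x, R < |x| → f x = 0) :
    ∫ x, f x = ∫ x in (-R)..R, f x := by
  rw [intervalIntegral.integral_of_le (by linarith), ← integral_Icc_eq_integral_Ioc]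
  refine (setIntegral_eq_integral_of_forall_compl_eq_zero fun x hx => h x ?_).symm
  rw [Set.mem_Icc, not_and_or, not_le, not_le] at hx
  rw [lt_abs]
  rcases hx with hx | hx
  · right
    linarith
  · left
    exact hx

lemma icc_intC {f : ℝ → ℂ} {R : ℝ} (hR : 0 < R) (h : ∀ x, R < |x| → f x = 0) :
    ∫ x, f x = ∫ x in (-R)..R, f x := by
  rw [intervalIntegral.integral_of_le (by linarith), ← integral_Icc_eq_integral_Ioc]
  refine (setIntegral_eq_integral_of_forall_compl_eq_zero fun x hx => h x ?_).symm
  rw [Set.mem_Icc, not_and_or, not_le, not_le] at hx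
  rw [lt_abs]
  rcases hx with hx | hx
  · right
    linarith
  · left
    exact hx

lemma ftc {E : Type*} [NormedAddCommGroup E] [NormedSpace ℝ E] [CompleteSpace E] {f : ℝ → E}
    (hf : Continuous f) (a x : ℝ) : HasDerivAt (fun y => ∫ s in a..y, f s) (f x) x :=
  intervalIntegral.integral_hasDerivAt_right (hf.intervalIntegrable _ _)
    hf.stronglyMeasurable.stronglyMeasurableAtFilter hf.continuousAt

end T1

open T1 in
theorem p_T1 (hTD : S_TD) (hTP : S_TP) (hTE : S_TE) : S_T1 := by
  intro N R u u' hR hu hu' hsup horth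
  have hc : ∀ i, Continuous fun y => u y i := fun i =>
    continuous_iff_continuousAt.2 fun x => (hu x i).continuousAt
  have hc' : ∀ i, Continuous fun y => u' y i := fun i => (continuous_apply i).comp hu'
  have hn : Continuous fun x => nsq (u x) := by
    unfold nsq
    exact continuous_finsetSum _ fun i _ => ((hc i).norm).pow 2
  have hn' : Continuous fun x => nsq (u' x) := by
    unfold nsq
    exact continuous_finsetSum _ fun i _ => ((hc' i).norm).pow 2
  have hr : Continuous fun x => nsq (u x) ^ ((5 : ℝ) / 3) :=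
    hn.rpow_const fun x => Or.inr (by norm_num)
  have hz : ∀ x, R < |x| → u' x = 0 := by
    intro x hx
    funext i
    have h1 : (fun y => u y i) =ᶠ[nhds x] fun _ => (0 : ℂ) := by
      have h2 : ∀ᶠ y in nhds x, R < |y| := (continuous_abs.tendsto x).eventually (lt_mem_nhds hx)
      filter_upwards [h2] with y hy
      rw [hsup y hy.le]
      rfl
    have h3 : HasDerivAt (fun y => u y i) 0 x := (hasDerivAt_const x (0 : ℂ)).congr_of_eventuallyEq h1
    exact (hu x i).unique h3
  -- the matrices
  set t : ℝ → Mat N := fun x => grm u (-R) x - (1 / 2 : ℂ) • (1 : Mat N) with ht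
  have hfull : grm u (-R) R = 1 := by
    ext i j
    simp only [grm, Matrix.of_apply]
    rw [← icc_intC hR (fun x hx => by rw [hsup x hx.le]; simp), horth i j, Matrix.one_apply]
  have hadd : ∀ x, grm u (-R) x + grm u x R = 1 := by
    intro x
    rw [← hfull]
    ext i j
    simp only [grm, Matrix.of_apply, Matrix.add_apply]
    exact intervalIntegral.integral_add_adjacent_intervals ((cij hc i j).intervalIntegrable _ _)
      ((cij hc i j).intervalIntegrable _ _)
  have hhalf : (1 / 2 : ℂ) • (1 : Mat N) + (1 / 2 : ℂ) • (1 : Mat N) = 1 := by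
    rw [← add_smul]
    norm_num
  have hHalf : ∀ x, -R ≤ x → x ≤ R → Half (t x) := by
    intro x hx1 hx2
    have h1 : (1 / 2 : ℂ) • (1 : Mat N) + t x = grm u (-R) x := by
      simp only [ht]
      abel
    have h2 : (1 / 2 : ℂ) • (1 : Mat N) - t x = grm u x R := by
      simp only [ht]
      have h3 : (1 / 2 : ℂ) • (1 : Mat N) - (grm u (-R) x - (1 / 2 : ℂ) • (1 : Mat N)) =
          ((1 / 2 : ℂ) • (1 : Mat N) + (1 / 2 : ℂ) • (1 : Mat N)) - grm u (-R) x := by abel
      rw [h3, hhalf, ← hadd x]
      abel
    refine ⟨?_, ?_, ?_⟩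
    · have h3 : t x = grm u (-R) x - (1 / 2 : ℂ) • (1 : Mat N) := rfl
      rw [h3]
      refine (grm_psd u hc hx1).isHermitian.sub ?_
      ext i j
      simp only [Matrix.conjTranspose_apply, Matrix.smul_apply, Matrix.one_apply, smul_eq_mul,
        @eq_comm _ j i]
      split_ifs <;> simp
    · rw [h2]
      exact grm_psd u hc hx2
    · rw [h1]
      exact grm_psd u hc hx1
  have htd : ∀ x i j, HasDerivAt (fun y => t y i j) (outer (u x) i j) x := by
    intro x i j
    have h1 : HasDerivAt (fun y => ∫ s in (-R)..y, u s i * star (u s j)) (u x i * star (u x j)) x :=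
      ftc (cij hc i j) (-R) x
    have h2 := h1.sub_const (((1 / 2 : ℂ) • (1 : Mat N)) i j)
    exact h2
  -- the function
  set H : ℝ → ℝ := fun y => qf (XX (t y)) (u y) + (Matrix.trace (PP (t y))).re with hH
  set F : ℝ → ℝ := fun y => H y + ((∫ s in (-R)..y, nsq (u' s)) -
    1369 / 500 * ∫ s in (-R)..y, nsq (u s) ^ ((5 : ℝ) / 3)) with hF
  have hFd : ∀ x, -R ≤ x → x ≤ R → HasDerivAt F (DH (t x) (u x) (u' x) + (nsq (u' x) -
      1369 / 500 * nsq (u x) ^ ((5 : ℝ) / 3))) x := by
    intro x hx1 hx2
    have h1 : HasDerivAt H (DH (t x) (u x) (u' x)) x :=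
      hTD N u u' t x (hHalf x hx1 hx2) (hu x) (htd x)
    exact h1.add ((ftc hn' (-R) x).sub ((ftc hr (-R) x).const_mul _))
  have hmono : MonotoneOn F (Set.Icc (-R) R) := by
    refine monotoneOn_of_deriv_nonneg (convex_Icc _ _) ?_ ?_ ?_
    · intro x hx
      exact (hFd x hx.1 hx.2).continuousAt.continuousWithinAt
    · intro x hx
      rw [interior_Icc] at hx
      exact (hFd x hx.1.le hx.2.le).differentiableAt.differentiableWithinAt
    · intro x hx
      rw [interior_Icc] at hx
      rw [(hFd x hx.1.le hx.2.le).deriv]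
      have := hTP N (t x) (u x) (u' x) (hHalf x hx.1.le hx.2.le)
      linarith
  have hle := hmono (Set.left_mem_Icc.2 (by linarith)) (Set.right_mem_Icc.2 (by linarith))
    (by linarith : -R ≤ R)
  have hu0 : u (-R) = 0 := hsup _ (by rw [abs_neg, abs_of_pos hR])
  have hu1 : u R = 0 := hsup _ (by rw [abs_of_pos hR])
  have ht0 : t (-R) = -(1 / 2 : ℂ) • (1 : Mat N) := by
    have h1 : grm u (-R) (-R) = 0 := by
      ext i j
      simp [grm]
    simp only [ht]
    rw [h1, zero_sub, neg_smul]
  have ht1 : t R = (1 / 2 : ℂ) • (1 : Mat N) := by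
    simp only [ht]
    rw [hfull, sub_eq_iff_eq_add]
    exact hhalf.symm
  have hH0 : H (-R) = -(N / 2) := by
    simp only [hH]
    rw [ht0, (hTE N).2, hu0]
    simp [qf]
  have hH1 : H R = N / 2 := by
    simp only [hH]
    rw [ht1, (hTE N).1, hu1]
    simp [qf]
  simp only [hF] at hle
  rw [hH0, hH1, intervalIntegral.integral_same, intervalIntegral.integral_same] at hle
  rw [icc_int hR (f := fun x => nsq (u x) ^ ((5 : ℝ) / 3)) (fun x hx => by
      rw [hsup x hx.le]
      have : nsq (0 : Fin N → ℂ) = 0 := by simp [nsq]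
      rw [this, Real.zero_rpow (by norm_num)]),
    icc_int hR (f := fun x => nsq (u' x)) (fun x hx => by
      rw [hz x hx]
      simp [nsq])]
  linarith

end Pool.Agent.Work.MP_3242df_tp
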