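import Pool.Agent.Work.MP_3242df_tp.Def

/-!
# T2: the scale invariant inequality on the line
-/

open MeasureTheory

namespace Pool.Agent.Work.MP_3242df_tp

namespace T2

theorem alg (I T n : ℝ) (hI : 0 ≤ I) (hT : 0 ≤ T) (hn : 0 ≤ n)
    (h : ∀ x : ℝ, 0 < x → 1369 / 500 * (x * I) ≤ x ^ 3 * T + n) :
    76 / 25 * I ^ 3 ≤ n ^ 2 * T := by
  rcases hI.eq_or_lt with rfl | hI0
  · simp only [ne_eq, OfNat.ofNat_ne_zero, not_false_eq_true, zero_pow, mul_zero]
    positivity
  rcases hT.eq_or_lt with rfl | hT0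
  · exfalso
    have h1 := h ((n + 1) / I) (by positivity)
    rw [div_mul_cancel₀ _ hI0.ne', mul_zero, zero_add] at h1
    linarith
  · set x : ℝ := Real.sqrt (1369 / 500 * I / (3 * T)) with hx
    have hx0 : 0 < x := Real.sqrt_pos.2 (by positivity)
    have hx2 : x ^ 2 = 1369 / 500 * I / (3 * T) := Real.sq_sqrt (by positivity)
    have hx3 : 3 * T * x ^ 2 = 1369 / 500 * I := by
      rw [hx2]
      field_simp
    have h1 := h x hx0
    have h2 : 2 / 3 * (1369 / 500 * I) * x ≤ n := by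
      have : x ^ 3 * T = 1 / 3 * (1369 / 500 * I) * x := by
        rw [← hx3]
        ring
      rw [this] at h1
      linarith
    have h3 : (2 / 3 * (1369 / 500 * I) * x) ^ 2 ≤ n ^ 2 :=
      pow_le_pow_left₀ (by positivity) h2 2
    have h4 : (2 / 3 * (1369 / 500 * I) * x) ^ 2 * T ≤ n ^ 2 * T :=
      mul_le_mul_of_nonneg_right h3 hT
    have h5 : (2 / 3 * (1369 / 500 * I) * x) ^ 2 * T =
        4 / 27 * (1369 / 500) ^ 3 * I ^ 3 := by
      have : (2 / 3 * (1369 / 500 * I) * x) ^ 2 * T =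
          4 / 27 * (1369 / 500 * I) ^ 2 * (3 * T * x ^ 2) := by ring
      rw [this, hx3]
      ring
    rw [h5] at h4
    refine le_trans ?_ h4
    have : (0 : ℝ) ≤ I ^ 3 := by positivity
    nlinarith

theorem supp {N : ℕ} (u : Fin N → ℝ → ℂ) (h : ∀ i, HasCompactSupport (u i)) :
    ∃ R : ℝ, 0 < R ∧ ∀ x, R ≤ |x| → ∀ i, u i x = 0 := by
  have h1 : ∀ i, ∃ R : ℝ, 0 < R ∧ ∀ x, R ≤ |x| → u i x = 0 := by
    intro i
    obtain ⟨R, hR⟩ := (h i).isCompact.isBounded.subset_closedBall 0
    refine ⟨max R 0 + 1, by positivity, fun x hx => ?_⟩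
    by_contra hne
    have h2 : x ∈ Metric.closedBall (0 : ℝ) R := hR (subset_tsupport _ hne)
    rw [mem_closedBall_zero_iff, Real.norm_eq_abs] at h2
    have := le_max_left R 0
    linarith
  choose R hR hu using h1
  refine ⟨∑ i, R i + 1, ?_, fun x hx i => hu i x ?_⟩
  · have : 0 ≤ ∑ i, R i := Finset.sum_nonneg fun i _ => (hR i).le
    linarith
  · have : R i ≤ ∑ i, R i := Finset.single_le_sum (fun i _ => (hR i).le) (Finset.mem_univ i)
    linarith

end T2

theorem p_T2 (hT1 : S_T1) : S_T2 := by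
  intro N u hu
  obtain ⟨R, hR, hsupp⟩ := T2.supp u hu.supp
  have hderiv : ∀ i x, HasDerivAt (u i) (deriv (u i) x) x := fun i x =>
    ((hu.smooth i).differentiable one_ne_zero).differentiableAt.hasDerivAt
  have hdc : ∀ i, Continuous (deriv (u i)) := fun i => (hu.smooth i).continuous_deriv le_rfl
  have hint : ∀ i, Integrable fun x => ‖deriv (u i) x‖ ^ 2 := by
    intro i
    refine Continuous.integrable_of_hasCompactSupport ((hdc i).norm.pow 2) ?_
    refine (hu.supp i).deriv.norm.comp_left (g := fun y : ℝ => y ^ 2) ?_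
    norm_num
  refine T2.alg _ _ _ (integral_nonneg fun x => by positivity)
    (Finset.sum_nonneg fun i _ => integral_nonneg fun x => by positivity) (Nat.cast_nonneg N) ?_
  intro x hx
  -- the scaling parameter
  set s : ℝ := Real.sqrt x with hs
  have hs0 : 0 < s := Real.sqrt_pos.2 hx
  have hs2 : s ^ 2 = x := Real.sq_sqrt hx.le
  set l : ℝ := s ^ 3 with hl
  have hl0 : 0 < l := by positivity
  set c : ℝ := Real.sqrt l with hc
  have hc2 : c ^ 2 = l := Real.sq_sqrt hl0.le
  have hc0 : 0 < c := Real.sqrt_pos.2 hl0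
  have key := hT1 N (R / l) (fun y i => (c : ℂ) * u i (l * y))
    (fun y i => (c : ℂ) * ((l : ℂ) * deriv (u i) (l * y))) (by positivity) ?_ ?_ ?_ ?_
  · have e1 : ∀ y, nsq (fun i => (c : ℂ) * u i (l * y)) = l * ∑ i, ‖u i (l * y)‖ ^ 2 := by
      intro y
      unfold nsq
      rw [Finset.mul_sum]
      refine Finset.sum_congr rfl fun i _ => ?_
      rw [norm_mul, mul_pow, Complex.norm_real, Real.norm_of_nonneg hc0.le, hc2]
    have e2 : ∀ y, nsq (fun i => (c : ℂ) * ((l : ℂ) * deriv (u i) (l * y))) =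
        l ^ 3 * ∑ i, ‖deriv (u i) (l * y)‖ ^ 2 := by
      intro y
      unfold nsq
      rw [Finset.mul_sum]
      refine Finset.sum_congr rfl fun i _ => ?_
      rw [norm_mul, norm_mul, mul_pow, mul_pow, Complex.norm_real, Complex.norm_real,
        Real.norm_of_nonneg hc0.le, hc2, Real.norm_of_nonneg hl0.le]
      ring
    have e3 : ∫ y, nsq (fun i => (c : ℂ) * u i (l * y)) ^ ((5 : ℝ) / 3) =
        x * ∫ y, (∑ i, ‖u i y‖ ^ 2) ^ ((5 : ℝ) / 3) := by
      simp_rw [e1]
      have : ∀ y, (l * ∑ i, ‖u i (l * y)‖ ^ 2) ^ ((5 : ℝ) / 3) =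
          l ^ ((5 : ℝ) / 3) * (∑ i, ‖u i (l * y)‖ ^ 2) ^ ((5 : ℝ) / 3) := fun y =>
        Real.mul_rpow hl0.le (Finset.sum_nonneg fun i _ => by positivity)
      simp_rw [this]
      rw [integral_const_mul,
        Measure.integral_comp_mul_left (fun y => (∑ i, ‖u i y‖ ^ 2) ^ ((5 : ℝ) / 3)) l,
        smul_eq_mul, ← mul_assoc]
      congr 1
      rw [abs_of_pos (by positivity), hl, ← Real.rpow_natCast s 3, ← Real.rpow_mul hs0.le,
        ← Real.rpow_neg hs0.le, ← Real.rpow_add hs0, ← hs2, ← Real.rpow_natCast s 2]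
      norm_num
    have e4 : ∫ y, nsq (fun i => (c : ℂ) * ((l : ℂ) * deriv (u i) (l * y))) =
        x ^ 3 * ∑ i, ∫ y, ‖deriv (u i) y‖ ^ 2 := by
      simp_rw [e2]
      rw [integral_const_mul,
        Measure.integral_comp_mul_left (fun y => ∑ i, ‖deriv (u i) y‖ ^ 2) l,
        integral_finsetSum _ fun i _ => hint i, smul_eq_mul, ← mul_assoc]
      congr 1
      rw [abs_of_pos (by positivity), hl, ← hs2]
      field_simp
    rw [e3, e4] at key
    exact key
  · intro y i
    have h1 : HasDerivAt (fun y : ℝ => l * y) l y := by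
      simpa using (hasDerivAt_id y).const_mul l
    have h2 := (hderiv i (l * y)).scomp y h1
    have h3 : HasDerivAt (fun y : ℝ => (c : ℂ) * u i (l * y))
        ((c : ℂ) * (l • deriv (u i) (l * y))) y := h2.const_mul (c : ℂ)
    rw [Complex.real_smul] at h3
    exact h3
  · refine continuous_pi fun i => ?_
    have := hdc i
    fun_prop
  · intro y hy
    funext i
    have : u i (l * y) = 0 := by
      refine hsupp _ ?_ i
      rw [abs_mul, abs_of_pos hl0]
      rwa [div_le_iff₀' hl0] at hy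
    simp [this]
  · intro i j
    have e1 : ∀ y : ℝ, (c : ℂ) * u i (l * y) * star ((c : ℂ) * u j (l * y)) =
        (l : ℂ) * ((starRingEnd ℂ) (u j (l * y)) * u i (l * y)) := by
      intro y
      have : (l : ℂ) = (c : ℂ) * (c : ℂ) := by
        rw [← hc2]
        push_cast
        ring
      rw [this, star_mul', Complex.star_def, Complex.conj_ofReal]
      ring
    simp_rw [e1]
    rw [integral_const_mul,
      Measure.integral_comp_mul_left (fun y => (starRingEnd ℂ) (u j y) * u i y) l, hu.orth j i,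
      abs_of_pos (by positivity)]
    by_cases hij : i = j
    · rw [if_pos hij, if_pos hij.symm]
      simp [Complex.real_smul, hl0.ne']
    · rw [if_neg hij, if_neg (Ne.symm hij)]
      simp

end Pool.Agent.Work.MP_3242df_tp
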