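import Pool.Agent.Work.MP_3242df_tp.Def

/-!
# Block TA (typed by helper66): the product functions are `C_c^1` and orthonormal
-/

open MeasureTheory Matrix Finset

namespace Pool.Agent.Work.MP_3242df_tp

/-- the integral of a product function on `ℝ ^ 3` -/
theorem TA.int_prod (f : Fin 3 → ℝ → ℂ) :
    ∫ x : EuclideanSpace ℝ (Fin 3), ∏ d, f d (x d) = ∏ d, ∫ y, f d y := by
  rw [← integral_fintype_prod_volume_eq_prod,
    ← (PiLp.volume_preserving_toLp (Fin 3)).integral_comp
      (MeasurableEquiv.toLp 2 _).measurableEmbedding]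

theorem p_TA : S_TA := by
  intro n u hu
  refine ⟨fun a => ⟨?_, ?_⟩, fun a b => ?_⟩
  · unfold prodFun
    refine contDiff_prod fun d _ => ?_
    exact ((hu d).smooth (a d)).comp
      (EuclideanSpace.proj d : EuclideanSpace ℝ (Fin 3) →L[ℝ] ℝ).contDiff
  · refine HasCompactSupport.intro
      (K := (EuclideanSpace.equiv (Fin 3) ℝ).toHomeomorph ⁻¹'
        (Set.pi Set.univ fun d => tsupport (u d (a d)))) ?_ ?_
    · rw [Homeomorph.isCompact_preimage]
      exact isCompact_univ_pi fun d => (hu d).supp (a d)
    · intro x hx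
      rw [Set.mem_preimage, Set.mem_univ_pi] at hx
      push Not at hx
      obtain ⟨d, hd⟩ := hx
      unfold prodFun
      refine Finset.prod_eq_zero (Finset.mem_univ d) ?_
      exact image_eq_zero_of_notMem_tsupport hd
  · have h1 : ∀ x : EuclideanSpace ℝ (Fin 3), (starRingEnd ℂ) (prodFun u a x) * prodFun u b x =
        ∏ d, (fun y => (starRingEnd ℂ) (u d (a d) y) * u d (b d) y) (x d) := by
      intro x
      unfold prodFun
      rw [map_prod, ← Finset.prod_mul_distrib]
    simp_rw [h1]
    rw [TA.int_prod (fun d y => (starRingEnd ℂ) (u d (a d) y) * u d (b d) y)]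
    simp_rw [(hu _).orth]
    by_cases hab : a = b
    · subst hab
      simp
    · rw [if_neg hab]
      obtain ⟨d, hd⟩ := Function.ne_iff.1 hab
      exact Finset.prod_eq_zero (Finset.mem_univ d) (if_neg hd)

end Pool.Agent.Work.MP_3242df_tp
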