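import Pool.Agent.Work.MP_3242df_tp.Def

set_option autoImplicit false

open MeasureTheory Matrix Finset

namespace Pool.Agent.Work.MP_3242df_tp

theorem p_TC : S_TC := by
  unfold S_TC
  have hpi : Real.pi < 3.1416 := Real.pi_lt_d4
  have hp0 := Real.pi_pos
  have hbase : (0 : ℝ) ≤ 6 * Real.pi ^ 2 := by positivity
  have h1 : ((6 * Real.pi ^ 2) ^ ((2 : ℝ) / 3)) ^ 3 = (6 * Real.pi ^ 2) ^ 2 := by
    rw [← Real.rpow_natCast, ← Real.rpow_mul hbase, ← Real.rpow_natCast]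
    norm_num
  have h2 : Real.pi ^ 2 < 3.1416 ^ 2 := by
    exact pow_lt_pow_left₀ hpi hp0.le (by norm_num)
  have h3 : (6 * Real.pi ^ 2) ^ 2 < (76 / 5 : ℝ) ^ 3 := by
    have h4 : (6 * Real.pi ^ 2) ^ 2 < (6 * 3.1416 ^ 2 : ℝ) ^ 2 := by
      exact pow_lt_pow_left₀ (by linarith) hbase (by norm_num)
    refine h4.trans ?_
    norm_num
  have h5 : (6 * Real.pi ^ 2) ^ ((2 : ℝ) / 3) < 76 / 5 := by
    by_contra hcon
    push Not at hcon
    have h6 : (76 / 5 : ℝ) ^ 3 ≤ ((6 * Real.pi ^ 2) ^ ((2 : ℝ) / 3)) ^ 3 :=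
      pow_le_pow_left₀ (by norm_num) hcon 3
    rw [h1] at h6
    linarith
  linarith

end Pool.Agent.Work.MP_3242df_tp
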