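import Pool.Agent.Work.MP_3242df_tp.Def

/-!
# Block TD: the derivative of `⟨v, X v⟩ + Tr Ψ` (helper24)
-/

open MeasureTheory Matrix Finset

open scoped ComplexOrder

namespace Pool.Agent.Work.MP_3242df_tp

namespace TD

/-- entrywise derivative -/
def MD {N : ℕ} (A : ℝ → Mat N) (A' : Mat N) (x : ℝ) : Prop :=
  ∀ i j, HasDerivAt (fun y => A y i j) (A' i j) x

theorem MD.mul {N : ℕ} {A B : ℝ → Mat N} {A' B' : Mat N} {x : ℝ} (hA : MD A A' x)
    (hB : MD B B' x) : MD (fun y => A y * B y) (A' * B x + A x * B') x := by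
  intro i j
  simp only [Matrix.mul_apply, Matrix.add_apply]
  rw [← Finset.sum_add_distrib]
  exact HasDerivAt.fun_sum (fun k _ => (hA i k).mul (hB k j))

theorem MD.smul {N : ℕ} {A : ℝ → Mat N} {A' : Mat N} {x : ℝ} (hA : MD A A' x) (c : ℂ) :
    MD (fun y => c • A y) (c • A') x := by
  intro i j
  simp only [Matrix.smul_apply, smul_eq_mul]
  exact (hA i j).const_mul c

theorem MD.add {N : ℕ} {A B : ℝ → Mat N} {A' B' : Mat N} {x : ℝ} (hA : MD A A' x)
    (hB : MD B B' x) : MD (fun y => A y + B y) (A' + B') x := by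
  intro i j
  simp only [Matrix.add_apply]
  exact (hA i j).add (hB i j)

theorem MD.trace {N : ℕ} {A : ℝ → Mat N} {A' : Mat N} {x : ℝ} (hA : MD A A' x) :
    HasDerivAt (fun y => Matrix.trace (A y)) (Matrix.trace A') x := by
  unfold Matrix.trace
  simp only [Matrix.diag_apply]
  exact HasDerivAt.fun_sum (fun k _ => hA k k)

theorem MD.quad {N : ℕ} {A : ℝ → Mat N} {A' : Mat N} {x : ℝ} (hA : MD A A' x)
    {u : ℝ → Fin N → ℂ} {v' : Fin N → ℂ} (hu : ∀ i, HasDerivAt (fun y => u y i) (v' i) x) :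
    HasDerivAt (fun y => star (u y) ⬝ᵥ (A y *ᵥ u y))
      (star v' ⬝ᵥ (A x *ᵥ u x) + star (u x) ⬝ᵥ (A' *ᵥ u x + A x *ᵥ v')) x := by
  simp only [dotProduct, mulVec, Pi.star_apply, Pi.add_apply]
  rw [← Finset.sum_add_distrib]
  refine HasDerivAt.fun_sum (fun i _ => ?_)
  have h1 : HasDerivAt (fun y => star (u y i)) (star (v' i)) x := (hu i).star
  have h2 : HasDerivAt (fun y => ∑ j, A y i j * u y j)
      (∑ j, A' i j * u x j + ∑ j, A x i j * v' j) x := by
    rw [← Finset.sum_add_distrib]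
    exact HasDerivAt.fun_sum (fun j _ => (hA i j).mul (hu j))
  exact h1.mul h2

/-- the quadratic form, complex valued -/
noncomputable def D {N : ℕ} (v : Fin N → ℂ) (A : Mat N) : ℂ := star v ⬝ᵥ (A *ᵥ v)

theorem D_add {N : ℕ} (v : Fin N → ℂ) (A B : Mat N) : D v (A + B) = D v A + D v B := by
  unfold D; rw [Matrix.add_mulVec, dotProduct_add]

theorem D_smul {N : ℕ} (v : Fin N → ℂ) (c : ℂ) (A : Mat N) : D v (c • A) = c * D v A := by
  unfold D; rw [Matrix.smul_mulVec, dotProduct_smul, smul_eq_mul]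

theorem outer_mulVec {N : ℕ} (v w : Fin N → ℂ) : outer v *ᵥ w = (star v ⬝ᵥ w) • v := by
  ext i
  simp only [outer, mulVec, dotProduct, Matrix.of_apply, Pi.smul_apply, smul_eq_mul,
    Pi.star_apply, Finset.sum_mul]
  refine Finset.sum_congr rfl (fun j _ => ?_)
  ring

theorem D_outer {N : ℕ} (v : Fin N → ℂ) (A B : Mat N) :
    D v (A * outer v * B) = D v A * D v B := by
  unfold D
  rw [← Matrix.mulVec_mulVec, ← Matrix.mulVec_mulVec, outer_mulVec, Matrix.mulVec_smul,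
    dotProduct_smul, smul_eq_mul, mul_comm]

theorem trace_outer {N : ℕ} (v : Fin N → ℂ) (A : Mat N) :
    Matrix.trace (A * outer v) = D v A := by
  unfold D
  simp only [Matrix.trace, Matrix.diag_apply, Matrix.mul_apply, outer, Matrix.of_apply,
    dotProduct, mulVec, Pi.star_apply, Finset.mul_sum]
  refine Finset.sum_congr rfl (fun i _ => Finset.sum_congr rfl (fun j _ => ?_))
  ring

theorem D_herm {N : ℕ} (v w : Fin N → ℂ) (A : Mat N) (hA : A.IsHermitian) :
    star (star v ⬝ᵥ (A *ᵥ w)) = star w ⬝ᵥ (A *ᵥ v) := by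
  rw [← Matrix.star_dotProduct_star, star_star, Matrix.star_mulVec, hA.eq,
    ← Matrix.dotProduct_mulVec]

theorem D_real {N : ℕ} (v : Fin N → ℂ) (A : Mat N) (hA : A.IsHermitian) :
    D v A = ((D v A).re : ℂ) := by
  have h := D_herm v v A hA
  have h2 : (starRingEnd ℂ) (D v A) = D v A := h
  exact (Complex.conj_eq_iff_re.1 h2).symm

theorem nsq_eq {N : ℕ} (v : Fin N → ℂ) : ((nsq v : ℝ) : ℂ) = star v ⬝ᵥ v := by
  unfold nsq
  simp only [dotProduct, Pi.star_apply]
  push_cast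
  refine Finset.sum_congr rfl (fun i _ => ?_)
  have := Complex.conj_mul' (v i)
  rw [← this]; rfl

theorem D_one {N : ℕ} (v : Fin N → ℂ) : D v 1 = ((nsq v : ℝ) : ℂ) := by
  unfold D; rw [Matrix.one_mulVec, nsq_eq]

section alg

variable {N : ℕ} (T W : Mat N) (v : Fin N → ℂ)

theorem hTWT (hc : T * W = W * T) : T * W * T = T * T * W := by
  rw [Matrix.mul_assoc, ← hc, ← Matrix.mul_assoc]

/-- `w = ρ + κ p` -/
theorem w_eq (hM : (1 - (10 / 3 : ℂ) • (T * T)) * W = 1) :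
    D v W = ((nsq v : ℝ) : ℂ) + 10 / 3 * D v (T * T * W) := by
  have h1 : W = 1 + (10 / 3 : ℂ) • (T * T * W) := by
    rw [Matrix.sub_mul, Matrix.one_mul, Matrix.smul_mul] at hM
    rw [← hM]; abel
  conv_lhs => rw [h1]
  rw [D_add, D_smul, D_one]

theorem DX' (hc : T * W = W * T) (hM : (1 - (10 / 3 : ℂ) • (T * T)) * W = 1) :
    D v ((57 / 25 : ℂ) • outer v + (3 / 50 : ℂ) • (outer v * W +
      T * (W * ((10 / 3 : ℂ) • (outer v * T + T * outer v)) * W))) =
    57 / 25 * ((nsq v : ℝ) : ℂ) ^ 2 + 3 / 50 * (D v W ^ 2 + 10 / 3 * D v (T * W) ^ 2) := by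
  have e1 : outer v = 1 * outer v * 1 := by rw [Matrix.one_mul, Matrix.mul_one]
  have e2 : outer v * W = 1 * outer v * W := by rw [Matrix.one_mul]
  have e3 : T * (W * ((10 / 3 : ℂ) • (outer v * T + T * outer v)) * W) =
      (10 / 3 : ℂ) • ((T * W) * outer v * (T * W)) +
        (10 / 3 : ℂ) • ((T * W * T) * outer v * W) := by
    simp only [Matrix.mul_smul, Matrix.smul_mul, Matrix.mul_add, Matrix.add_mul, smul_add,
      Matrix.mul_assoc]
  have h1 : D v (outer v) = ((nsq v : ℝ) : ℂ) ^ 2 := by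
    rw [e1, D_outer, D_one]; ring
  have h2 : D v (outer v * W) = ((nsq v : ℝ) : ℂ) * D v W := by
    rw [e2, D_outer, D_one]
  rw [D_add, D_smul, D_smul, D_add, e3, D_add, D_smul, D_smul, D_outer, D_outer, h1, h2,
    hTWT T W hc]
  have h3 := w_eq T W v hM
  have h4 : 10 / 3 * D v (T * T * W) = D v W - ((nsq v : ℝ) : ℂ) := by rw [h3]; ring
  calc _ = 57 / 25 * ((nsq v : ℝ) : ℂ) ^ 2 + 3 / 50 * (((nsq v : ℝ) : ℂ) * D v W +
        10 / 3 * D v (T * W) ^ 2 + (10 / 3 * D v (T * T * W)) * D v W) := by ring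
    _ = _ := by rw [h4]; ring

theorem trP (hc : T * W = W * T) :
    Matrix.trace ((14089 / 25000 : ℂ) • outer v +
      (1083 / 625 : ℂ) • ((outer v * T + T * outer v) * T + T * T * outer v) +
      (27 / 50000 : ℂ) • (outer v * W +
        T * (W * ((10 / 3 : ℂ) • (outer v * T + T * outer v)) * W))) =
    14089 / 25000 * ((nsq v : ℝ) : ℂ) + 3249 / 625 * D v (T * T) +
      27 / 50000 * (D v W + 20 / 3 * D v (T * T * W * W)) := by
  have t1 : Matrix.trace (outer v) = ((nsq v : ℝ) : ℂ) := by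
    rw [← D_one, ← trace_outer, Matrix.one_mul]
  have t2 : Matrix.trace ((outer v * T + T * outer v) * T + T * T * outer v) =
      3 * D v (T * T) := by
    rw [Matrix.add_mul, Matrix.trace_add, Matrix.trace_add, Matrix.mul_assoc (outer v),
      Matrix.trace_mul_comm (outer v), Matrix.trace_mul_comm (T * outer v) T,
      ← Matrix.mul_assoc T T, trace_outer]
    ring
  have t3 : Matrix.trace (outer v * W) = D v W := by
    rw [Matrix.trace_mul_comm, trace_outer]
  have e4 : T * W * (T * W) = T * T * W * W := by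
    rw [← Matrix.mul_assoc, hTWT T W hc]
  have e5 : W * (T * W * T) = T * T * W * W := by
    rw [hTWT T W hc, ← Matrix.mul_assoc, ← Matrix.mul_assoc, ← hc, Matrix.mul_assoc T W T, ← hc,
      ← Matrix.mul_assoc]
  have t4 : Matrix.trace (T * (W * ((10 / 3 : ℂ) • (outer v * T + T * outer v)) * W)) =
      20 / 3 * D v (T * T * W * W) := by
    have e3 : T * (W * ((10 / 3 : ℂ) • (outer v * T + T * outer v)) * W) =
        (10 / 3 : ℂ) • ((T * W) * outer v * (T * W)) +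
          (10 / 3 : ℂ) • ((T * W * T) * outer v * W) := by
      simp only [Matrix.mul_smul, Matrix.smul_mul, Matrix.mul_add, Matrix.add_mul, smul_add,
        Matrix.mul_assoc]
    rw [e3, Matrix.trace_add, Matrix.trace_smul, Matrix.trace_smul,
      Matrix.trace_mul_comm (T * W * outer v) (T * W),
      Matrix.trace_mul_comm (T * W * T * outer v) W, ← Matrix.mul_assoc (T * W) (T * W),
      ← Matrix.mul_assoc W (T * W * T), trace_outer, trace_outer, e4, e5, smul_eq_mul]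
    ring
  rw [Matrix.trace_add, Matrix.trace_add, Matrix.trace_smul, Matrix.trace_smul,
    Matrix.trace_smul, t1, t2, Matrix.trace_add, t3, t4]
  simp only [smul_eq_mul]
  ring

theorem XX2 (hc : T * W = W * T)
    (hXh : ((57 / 25 : ℂ) • T + (3 / 50 : ℂ) • (T * W)).IsHermitian) :
    ((nsq (((57 / 25 : ℂ) • T + (3 / 50 : ℂ) • (T * W)) *ᵥ v) : ℝ) : ℂ) =
      3249 / 625 * D v (T * T) + 171 / 625 * D v (T * T * W) + 9 / 2500 * D v (T * T * W * W) := by
  set X := (57 / 25 : ℂ) • T + (3 / 50 : ℂ) • (T * W) with hX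
  have h1 : ((nsq (X *ᵥ v) : ℝ) : ℂ) = D v (X * X) := by
    rw [nsq_eq, Matrix.star_mulVec, hXh.eq, ← Matrix.dotProduct_mulVec]
    unfold D
    rw [Matrix.mulVec_mulVec]
  have e4 : T * W * (T * W) = T * T * W * W := by
    rw [← Matrix.mul_assoc, hTWT T W hc]
  have h2 : X * X = (3249 / 625 : ℂ) • (T * T) + (171 / 625 : ℂ) • (T * T * W) +
      (9 / 2500 : ℂ) • (T * T * W * W) := by
    rw [hX, Matrix.add_mul, Matrix.mul_add, Matrix.mul_add, Matrix.smul_mul, Matrix.smul_mul,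
      Matrix.mul_smul, Matrix.mul_smul, Matrix.smul_mul, Matrix.smul_mul, Matrix.mul_smul,
      Matrix.mul_smul, e4, hTWT T W hc, ← Matrix.mul_assoc T T W]
    simp only [smul_smul]
    module
  rw [h1, h2, D_add, D_add, D_smul, D_smul, D_smul]

theorem fin_re (ρ a : ℝ) (w q τ p z : ℂ) (hw : w = (w.re : ℂ)) (hq : q = (q.re : ℂ))
    (hp : (10 / 3 * p).re = w.re - ρ) :
    a + ((57 / 25 * (ρ : ℂ) ^ 2 + 3 / 50 * (w ^ 2 + 10 / 3 * q ^ 2)).re + a) +
      (14089 / 25000 * (ρ : ℂ) + 3249 / 625 * τ + 27 / 50000 * (w + 20 / 3 * z)).re =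
    2 * a + 57 / 25 * ρ ^ 2 + 3 / 50 * (w.re ^ 2 + 10 / 3 * q.re ^ 2) + 16141 / 25000 * ρ -
      4077 / 50000 * w.re + (3249 / 625 * τ + 171 / 625 * p + 9 / 2500 * z).re := by
  have hp' : 10 / 3 * p.re = w.re - ρ := by
    rw [← hp, show (10 / 3 * p : ℂ) = ((10 / 3 : ℝ) : ℂ) * p by push_cast; ring,
      Complex.re_ofReal_mul]
  have e1 : (57 / 25 * (ρ : ℂ) ^ 2 + 3 / 50 * (w ^ 2 + 10 / 3 * q ^ 2)).re =
      57 / 25 * ρ ^ 2 + 3 / 50 * (w.re ^ 2 + 10 / 3 * q.re ^ 2) := by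
    have : (57 / 25 * (ρ : ℂ) ^ 2 + 3 / 50 * (w ^ 2 + 10 / 3 * q ^ 2)) =
        ((57 / 25 * ρ ^ 2 + 3 / 50 * (w.re ^ 2 + 10 / 3 * q.re ^ 2) : ℝ) : ℂ) := by
      conv_lhs => rw [hw, hq]
      push_cast; ring
    rw [this, Complex.ofReal_re]
  have e2 : (14089 / 25000 * (ρ : ℂ) + 3249 / 625 * τ + 27 / 50000 * (w + 20 / 3 * z)).re =
      14089 / 25000 * ρ + 3249 / 625 * τ.re + 27 / 50000 * (w.re + 20 / 3 * z.re) := by
    have : (14089 / 25000 * (ρ : ℂ) + 3249 / 625 * τ + 27 / 50000 * (w + 20 / 3 * z)) =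
        ((14089 / 25000 : ℝ) : ℂ) * (ρ : ℂ) + ((3249 / 625 : ℝ) : ℂ) * τ +
          ((27 / 50000 : ℝ) : ℂ) * (w + ((20 / 3 : ℝ) : ℂ) * z) := by
      push_cast; ring
    rw [this]
    simp only [Complex.add_re, Complex.re_ofReal_mul, Complex.ofReal_re]
  have e3 : (3249 / 625 * τ + 171 / 625 * p + 9 / 2500 * z).re =
      3249 / 625 * τ.re + 171 / 625 * p.re + 9 / 2500 * z.re := by
    have : (3249 / 625 * τ + 171 / 625 * p + 9 / 2500 * z) =
        ((3249 / 625 : ℝ) : ℂ) * τ + ((171 / 625 : ℝ) : ℂ) * p + ((9 / 2500 : ℝ) : ℂ) * z := by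
      push_cast; ring
    rw [this]
    simp only [Complex.add_re, Complex.re_ofReal_mul]
  rw [e1, e2, e3]
  linarith

end alg

end TD

open TD

theorem p_TD (hTW : S_TW) (hTDW : S_TDW) : S_TD := by
  intro N u u' t x hH hu ht
  obtain ⟨hM1, hM2, hWh, hcomm, -⟩ := hTW N (t x) hH
  have hW' : MD (fun y => WW (t y))
      (WW (t x) * ((10 / 3 : ℂ) • (outer (u x) * t x + t x * outer (u x))) * WW (t x)) x :=
    hTDW N t (outer (u x)) x hH ht
  have hT : MD t (outer (u x)) x := ht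
  have hX : MD (fun y => XX (t y)) _ x := (hT.smul (57 / 25)).add ((hT.mul hW').smul (3 / 50))
  have hP : MD (fun y => PP (t y)) _ x :=
    ((hT.smul (14089 / 25000)).add (((hT.mul hT).mul hT).smul (1083 / 625))).add
      ((hT.mul hW').smul (27 / 50000))
  have h1 := hX.quad hu
  have h2 := hP.trace
  have h3 := (Complex.reCLM.hasFDerivAt.comp_hasDerivAt x h1).add
    (Complex.reCLM.hasFDerivAt.comp_hasDerivAt x h2)
  have hTh : (t x).IsHermitian := hH.herm
  refine HasDerivAt.congr_deriv h3 ?_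
  simp only [Complex.reCLM_apply]
  have hc := hcomm
  have hTWh : (t x * WW (t x)).IsHermitian := by
    unfold Matrix.IsHermitian
    rw [Matrix.conjTranspose_mul, hWh.eq, hTh.eq, hc]
  have hXh : (XX (t x)).IsHermitian := by
    unfold XX Matrix.IsHermitian
    rw [Matrix.conjTranspose_add, Matrix.conjTranspose_smul, Matrix.conjTranspose_smul,
      hTWh.eq, hTh.eq]
    congr 2
    · simp
    · simp
  have k1 := DX' (t x) (WW (t x)) (u x) hc hM1
  have k2 := trP (t x) (WW (t x)) (u x) hc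
  have k3 := XX2 (t x) (WW (t x)) (u x) hc hXh
  have k4 := w_eq (t x) (WW (t x)) (u x) hM1
  have k5 : (star (u x) ⬝ᵥ (XX (t x) *ᵥ u' x)).re = (star (u' x) ⬝ᵥ (XX (t x) *ᵥ u x)).re := by
    rw [← D_herm (u' x) (u x) (XX (t x)) hXh]; rfl
  have r1 := D_real (u x) (WW (t x)) hWh
  have r2 := D_real (u x) (t x * WW (t x)) hTWh
  rw [dotProduct_add, Complex.add_re, Complex.add_re]
  unfold DH
  change _ + ((D (u x) _).re + _) + _ = _
  rw [k1, k2, k5]
  change _ = 2 * (star (u' x) ⬝ᵥ (XX (t x) *ᵥ u x)).re + 57 / 25 * nsq (u x) ^ 2 +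
    3 / 50 * ((D (u x) (WW (t x))).re ^ 2 + 10 / 3 * (D (u x) (t x * WW (t x))).re ^ 2) +
    16141 / 25000 * nsq (u x) - 4077 / 50000 * (D (u x) (WW (t x))).re +
    nsq (XX (t x) *ᵥ u x)
  have k6 : nsq (XX (t x) *ᵥ u x) = (3249 / 625 * D (u x) (t x * t x) +
      171 / 625 * D (u x) (t x * t x * WW (t x)) +
      9 / 2500 * D (u x) (t x * t x * WW (t x) * WW (t x))).re := by
    rw [← k3]; rfl
  rw [k6]
  have k7 : (10 / 3 * D (u x) (t x * t x * WW (t x))).re =
      (D (u x) (WW (t x))).re - nsq (u x) := by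
    have h5 : 10 / 3 * D (u x) (t x * t x * WW (t x)) =
        D (u x) (WW (t x)) - ((nsq (u x) : ℝ) : ℂ) := by rw [k4]; ring
    rw [h5, Complex.sub_re, Complex.ofReal_re]
  exact fin_re _ _ _ _ _ _ _ r1 r2 k7

end Pool.Agent.Work.MP_3242df_tp
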