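import Pool.Agent.Work.MP_3242df_tp.Def

/-!
# Block TDW: the derivative of the inverse
-/

open MeasureTheory Matrix Finset Filter Topology

open scoped ComplexOrder

namespace Pool.Agent.Work.MP_3242df_tp

namespace TDW

lemma mat_tendsto {N : ℕ} {f : ℝ → Mat N} {l : Filter ℝ} {a : Mat N}
    (h : ∀ i j, Tendsto (fun y => f y i j) l (𝓝 (a i j))) : Tendsto f l (𝓝 a) :=
  tendsto_pi_nhds.2 fun i => tendsto_pi_nhds.2 fun j => h i j

end TDW

open TDW in
theorem p_TDW (hTW : S_TW) : S_TDW := by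
  intro N t s x hH hd
  have hslope : Tendsto (fun y => (y - x)⁻¹ • (t y - t x)) (𝓝[≠] x) (𝓝 s) := by
    refine mat_tendsto fun i j => ?_
    have h := hasDerivAt_iff_tendsto_slope.1 (hd i j)
    exact h
  have hcont : Tendsto t (𝓝[≠] x) (𝓝 (t x)) := by
    refine mat_tendsto fun i j => ?_
    exact (hd i j).continuousAt.tendsto.mono_left nhdsWithin_le_nhds
  set M : ℝ → Mat N := fun y => 1 - (10 / 3 : ℂ) • (t y * t y) with hM
  have hMc : Tendsto M (𝓝[≠] x) (𝓝 (M x)) :=
    tendsto_const_nhds.sub ((hcont.mul hcont).const_smul _)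
  have hone := (hTW N (t x) hH).1
  have hone' := (hTW N (t x) hH).2.1
  have hdet : (M x).det ≠ 0 := by
    have h1 : (M x * WW (t x)).det = 1 := by
      have h2 : M x * WW (t x) = 1 := hone
      rw [h2, Matrix.det_one]
    intro h0
    rw [Matrix.det_mul, h0, zero_mul] at h1
    exact zero_ne_one h1
  have hinv : ContinuousAt (Inv.inv : Mat N → Mat N) (M x) := by
    apply continuousAt_matrix_inv
    have h1 : (Ring.inverse : ℂ → ℂ) = fun z => z⁻¹ := by
      funext z
      exact Ring.inverse_eq_inv z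
    rw [h1]
    exact continuousAt_inv₀ hdet
  have hW : Tendsto (fun y => WW (t y)) (𝓝[≠] x) (𝓝 (WW (t x))) := hinv.tendsto.comp hMc
  have hev : ∀ᶠ y in 𝓝[≠] x, (M y).det ≠ 0 := by
    have h1 : Tendsto (fun y => (M y).det) (𝓝[≠] x) (𝓝 (M x).det) :=
      ((continuous_id.matrix_det).tendsto (M x)).comp hMc
    exact h1.eventually_ne hdet
  have hlim : Tendsto (fun y => WW (t y) * ((10 / 3 : ℂ) • (((y - x)⁻¹ • (t y - t x)) * t y +
      t x * ((y - x)⁻¹ • (t y - t x)))) * WW (t x)) (𝓝[≠] x)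
      (𝓝 (WW (t x) * ((10 / 3 : ℂ) • (s * t x + t x * s)) * WW (t x))) :=
    (hW.mul (((hslope.mul hcont).add (tendsto_const_nhds.mul hslope)).const_smul _)).mul
      tendsto_const_nhds
  have hkey : ∀ᶠ y in 𝓝[≠] x, WW (t y) * ((10 / 3 : ℂ) • (((y - x)⁻¹ • (t y - t x)) * t y +
      t x * ((y - x)⁻¹ • (t y - t x)))) * WW (t x) = (y - x)⁻¹ • (WW (t y) - WW (t x)) := by
    filter_upwards [hev] with y hy
    have h1 : WW (t y) * M y = 1 := Matrix.nonsing_inv_mul _ (isUnit_iff_ne_zero.2 hy)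
    have h2 : M x * WW (t x) = 1 := hone
    have h3 : WW (t y) - WW (t x) = WW (t y) * (M x - M y) * WW (t x) := by
      rw [mul_sub, sub_mul, mul_assoc, h2, h1, mul_one, one_mul]
    have h4 : M x - M y = (10 / 3 : ℂ) • ((t y - t x) * t y + t x * (t y - t x)) := by
      simp only [hM]
      rw [sub_mul, mul_sub, sub_sub_sub_cancel_left, ← smul_sub]
      congr 1
      abel
    rw [h3, h4, smul_mul_assoc ((y - x)⁻¹), mul_smul_comm ((y - x)⁻¹), ← smul_add,
      smul_comm (10 / 3 : ℂ) ((y - x)⁻¹), mul_smul_comm ((y - x)⁻¹), smul_mul_assoc ((y - x)⁻¹)]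
  have hfin : Tendsto (fun y => (y - x)⁻¹ • (WW (t y) - WW (t x))) (𝓝[≠] x)
      (𝓝 (WW (t x) * ((10 / 3 : ℂ) • (s * t x + t x * s)) * WW (t x))) := hlim.congr' hkey
  intro i j
  rw [hasDerivAt_iff_tendsto_slope]
  exact ((continuous_id.matrix_elem i j).tendsto _).comp hfin

end Pool.Agent.Work.MP_3242df_tp
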