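import Pool.Agent.Work.MP_3242df_tp.Def

set_option autoImplicit false

open MeasureTheory Matrix Finset

namespace Pool.Agent.Work.MP_3242df_tp

namespace TEaux

lemma key (N : ℕ) (c : ℂ) (hc : c * c = 1 / 4) : PP (c • (1 : Mat N)) = c • (1 : Mat N) := by
  have h1 : (c • (1 : Mat N)) * (c • (1 : Mat N)) = (1 / 4 : ℂ) • (1 : Mat N) := by
    rw [Matrix.smul_mul, Matrix.mul_smul, Matrix.one_mul, smul_smul, hc]
  have h2 : WW (c • (1 : Mat N)) = (6 : ℂ) • (1 : Mat N) := by
    unfold WW
    apply Matrix.inv_eq_right_inv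
    rw [h1, smul_smul, ← one_smul ℂ (1 : Mat N)]
    simp only [smul_smul, mul_one]
    rw [← sub_smul, Matrix.smul_mul, Matrix.mul_smul, Matrix.one_mul, smul_smul]
    norm_num
  unfold PP
  rw [h1, h2]
  simp only [Matrix.smul_mul, Matrix.mul_smul, Matrix.one_mul, Matrix.mul_one, smul_smul]
  rw [← add_smul, ← add_smul]
  congr 1
  ring

end TEaux

theorem p_TE : S_TE := by
  intro N
  rw [TEaux.key N (1 / 2) (by norm_num), TEaux.key N (-(1 / 2)) (by norm_num)]
  simp only [Matrix.trace_smul, Matrix.trace_one, Fintype.card_fin, smul_eq_mul]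
  constructor
  · rw [Complex.mul_re]
    simp
    ring
  · rw [Complex.mul_re]
    simp
    ring

end Pool.Agent.Work.MP_3242df_tp
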