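import Pool.Agent.Work.MP_3242df_tp.Def

/-! # TF: the theorem on `ℝ ^ 3`. -/

open MeasureTheory Matrix Finset

namespace Pool.Agent.Work.MP_3242df_tp

namespace TF

lemma kin_nonneg {N : ℕ} (u : Fin N → ℝ → ℂ) : 0 ≤ ∑ i, ∫ x, ‖deriv (u i) x‖ ^ 2 :=
  Finset.sum_nonneg fun i _ => integral_nonneg fun x => by positivity

lemma dens_nonneg {N : ℕ} (u : Fin N → ℝ → ℂ) :
    0 ≤ ∫ x, (∑ i, ‖u i x‖ ^ 2) ^ ((5 : ℝ) / 3) :=
  integral_nonneg fun x => Real.rpow_nonneg (Finset.sum_nonneg fun i _ => by positivity) _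

lemma dens_zero {N : ℕ} (u : Fin N → ℝ → ℂ) (h : N = 0) :
    ∫ x, (∑ i, ‖u i x‖ ^ 2) ^ ((5 : ℝ) / 3) = 0 := by
  subst h
  have h1 : ∀ x : ℝ, (∑ i : Fin 0, ‖u i x‖ ^ 2) ^ ((5 : ℝ) / 3) = 0 := by
    intro x
    rw [Finset.univ_eq_empty, Finset.sum_empty, Real.zero_rpow (by norm_num)]
  simp only [h1, integral_zero]

end TF

theorem p_TF (hT2 : S_T2) (hTK : S_TK) (hTR : S_TR) (hTM : S_TM) : S_TF := by
  intro n u hu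
  rw [hTR n u hu, hTK n u hu]
  exact hTM (n 0) (n 1) (n 2) _ _ _ _ _ _ (TF.kin_nonneg (u 0)) (TF.kin_nonneg (u 1))
    (TF.kin_nonneg (u 2)) (TF.dens_nonneg (u 0)) (TF.dens_nonneg (u 1)) (TF.dens_nonneg (u 2))
    (TF.dens_zero (u 0)) (TF.dens_zero (u 1)) (TF.dens_zero (u 2))
    (hT2 (n 0) (u 0) (hu 0)) (hT2 (n 1) (u 1) (hu 1)) (hT2 (n 2) (u 2) (hu 2))

end Pool.Agent.Work.MP_3242df_tp
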