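import Pool.Agent.Work.MP_3242df_tp.Def

/-!
# Block TK (typed by helper66): the kinetic energy of the product functions
-/

open MeasureTheory Matrix Finset

namespace Pool.Agent.Work.MP_3242df_tp

/-- the integral of a product function on `ℝ ^ 3` -/
theorem TK.int_prod (f : Fin 3 → ℝ → ℝ) :
    ∫ x : EuclideanSpace ℝ (Fin 3), ∏ d, f d (x d) = ∏ d, ∫ y, f d y := by
  rw [← integral_fintype_prod_volume_eq_prod,
    ← (PiLp.volume_preserving_toLp (Fin 3)).integral_comp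
      (MeasurableEquiv.toLp 2 _).measurableEmbedding]

/-- a product of integrable functions is integrable on `ℝ ^ 3` -/
theorem TK.integrable_prod (f : Fin 3 → ℝ → ℝ) (hf : ∀ d, Integrable (f d)) :
    Integrable (fun x : EuclideanSpace ℝ (Fin 3) => ∏ d, f d (x d)) := by
  rw [← (PiLp.volume_preserving_toLp (Fin 3)).integrable_comp_emb
      (MeasurableEquiv.toLp 2 _).measurableEmbedding]
  exact Integrable.fintype_prod hf

theorem TK.norm_one {N : ℕ} {u : Fin N → ℝ → ℂ} (hu : Fam u) (i : Fin N) :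
    ∫ x, ‖u i x‖ ^ 2 = 1 := by
  have h := hu.orth i i
  simp only [if_true] at h
  have h1 : ∀ x, (starRingEnd ℂ) (u i x) * u i x = ((‖u i x‖ ^ 2 : ℝ) : ℂ) := by
    intro x
    rw [Complex.conj_mul']
    push_cast
    rfl
  simp_rw [h1] at h
  rw [integral_complex_ofReal] at h
  exact_mod_cast h

/-- the factors of the square of the derivative -/
noncomputable def TK.cc {n : Fin 3 → ℕ} (u : ∀ d : Fin 3, Fin (n d) → ℝ → ℂ) (j d : Fin 3)
    (i : Fin (n d)) (y : ℝ) : ℝ := if d = j then ‖deriv (u d i) y‖ ^ 2 else ‖u d i y‖ ^ 2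

theorem TK.cc_integrable {n : Fin 3 → ℕ} (u : ∀ d : Fin 3, Fin (n d) → ℝ → ℂ)
    (hu : ∀ d, Fam (u d)) (j d : Fin 3) (i : Fin (n d)) : Integrable (TK.cc u j d i) := by
  have hc : Continuous (TK.cc u j d i) := by
    unfold TK.cc
    split_ifs with h
    · exact (((hu d).smooth i).continuous_deriv le_rfl).norm.pow 2
    · exact ((hu d).smooth i).continuous.norm.pow 2
  refine hc.integrable_of_hasCompactSupport ?_
  by_cases h : d = j
  · refine ((hu d).supp i).deriv.mono' ?_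
    intro x hx
    refine subset_tsupport _ ?_
    intro h0
    apply hx
    unfold TK.cc
    rw [if_pos h, h0]
    simp
  · refine ((hu d).supp i).mono' ?_
    intro x hx
    refine subset_tsupport _ ?_
    intro h0
    apply hx
    unfold TK.cc
    rw [if_neg h, h0]
    simp

theorem TK.hasFDerivAt {n : Fin 3 → ℕ} (u : ∀ d : Fin 3, Fin (n d) → ℝ → ℂ)
    (hu : ∀ d, Fam (u d)) (d : Fin 3) (i : Fin (n d)) (x : EuclideanSpace ℝ (Fin 3)) :
    HasFDerivAt (fun x : EuclideanSpace ℝ (Fin 3) => u d i (x d))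
      ((ContinuousLinearMap.toSpanSingleton ℝ (deriv (u d i) (x d))).comp
        (EuclideanSpace.proj d : EuclideanSpace ℝ (Fin 3) →L[ℝ] ℝ)) x := by
  have h1 : HasDerivAt (u d i) (deriv (u d i) (x d)) (x d) :=
    (((hu d).smooth i).differentiable one_ne_zero _).hasDerivAt
  exact HasFDerivAt.comp x h1.hasFDerivAt
    (EuclideanSpace.proj d : EuclideanSpace ℝ (Fin 3) →L[ℝ] ℝ).hasFDerivAt

theorem TK.fd {n : Fin 3 → ℕ} (u : ∀ d : Fin 3, Fin (n d) → ℝ → ℂ)
    (hu : ∀ d, Fam (u d)) (a : ∀ d : Fin 3, Fin (n d)) (x : EuclideanSpace ℝ (Fin 3)) (j : Fin 3) :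
    ‖fderiv ℝ (prodFun u a) x (EuclideanSpace.single j (1 : ℝ))‖ ^ 2 =
      ∏ d, TK.cc u j d (a d) (x d) := by
  have h := ((TK.hasFDerivAt u hu 0 (a 0) x).mul (TK.hasFDerivAt u hu 1 (a 1) x)).mul
    (TK.hasFDerivAt u hu 2 (a 2) x)
  have h2 : prodFun u a = fun x => u 0 (a 0) (x 0) * u 1 (a 1) (x 1) * u 2 (a 2) (x 2) := by
    funext x
    unfold prodFun
    rw [Fin.prod_univ_three]
  have h' : HasFDerivAt (fun x : EuclideanSpace ℝ (Fin 3) =>
      u 0 (a 0) (x 0) * u 1 (a 1) (x 1) * u 2 (a 2) (x 2)) _ x := h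
  rw [h2, h'.fderiv]
  rw [Fin.prod_univ_three]
  fin_cases j <;> simp [TK.cc, mul_pow] <;> ring

theorem p_TK : S_TK := by
  intro n u hu
  have h1 : ∀ a, ∫ x, ∑ j : Fin 3,
      ‖fderiv ℝ (prodFun u a) x (EuclideanSpace.single j (1 : ℝ))‖ ^ 2 =
      ∑ j : Fin 3, ∏ d, ∫ y, TK.cc u j d (a d) y := by
    intro a
    simp_rw [TK.fd u hu]
    rw [integral_finsetSum]
    · refine Finset.sum_congr rfl fun j _ => ?_
      rw [TK.int_prod]
    · intro j _
      exact TK.integrable_prod _ fun d => TK.cc_integrable u hu j d (a d)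
  simp_rw [h1]
  rw [Finset.sum_comm]
  have h3 : ∀ j : Fin 3, ∑ a : (∀ d : Fin 3, Fin (n d)), ∏ d, ∫ y, TK.cc u j d (a d) y =
      ∏ d, ∑ i, ∫ y, TK.cc u j d i y := by
    intro j
    rw [Finset.prod_univ_sum, Fintype.piFinset_univ]
  simp_rw [h3]
  have h4 : ∀ d, ∑ i, ∫ y, ‖u d i y‖ ^ 2 = n d := by
    intro d
    simp_rw [TK.norm_one (hu d)]
    simp
  rw [Fin.sum_univ_three]
  simp_rw [Fin.prod_univ_three]
  simp [TK.cc, h4]
  ring

end Pool.Agent.Work.MP_3242df_tp
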