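import Pool.Agent.Work.MP_3242df_tp.Def

set_option autoImplicit false

open MeasureTheory Matrix Finset

namespace Pool.Agent.Work.MP_3242df_tp

namespace TP

theorem nsq_nonneg {N : ℕ} (v : Fin N → ℂ) : 0 ≤ nsq v :=
  Finset.sum_nonneg fun i _ => by positivity

theorem norm_add_sq' (z w : ℂ) : ‖z + w‖ ^ 2 = ‖z‖ ^ 2 + 2 * (star z * w).re + ‖w‖ ^ 2 := by
  have h1 : star z = (starRingEnd ℂ) z := rfl
  rw [h1, Complex.sq_norm, Complex.sq_norm, Complex.sq_norm, Complex.normSq_apply,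
    Complex.normSq_apply, Complex.normSq_apply, Complex.mul_re, Complex.conj_re, Complex.conj_im,
    Complex.add_re, Complex.add_im]
  ring

theorem nsq_add {N : ℕ} (a b : Fin N → ℂ) :
    nsq (a + b) = nsq a + 2 * (star a ⬝ᵥ b).re + nsq b := by
  unfold nsq dotProduct
  rw [Complex.re_sum, Finset.mul_sum, ← Finset.sum_add_distrib, ← Finset.sum_add_distrib]
  refine Finset.sum_congr rfl fun i _ => ?_
  rw [Pi.add_apply, norm_add_sq', Pi.star_apply]

end TP

theorem p_TP (hTW : S_TW) (hTS : S_TS) : S_TP := by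
  intro N t v v' ht
  obtain ⟨-, -, -, -, h5⟩ := hTW N t ht
  obtain ⟨h6, h7⟩ := h5 v
  have h1 := hTS (nsq v) (qf (WW t) v) (TP.nsq_nonneg v) h6 h7
  have h2 := TP.nsq_nonneg (v' + XX t *ᵥ v)
  rw [TP.nsq_add] at h2
  have h3 : 0 ≤ qf (t * WW t) v ^ 2 := sq_nonneg _
  unfold DH
  nlinarith [h1, h2, h3]

end Pool.Agent.Work.MP_3242df_tp
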