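import Pool.Agent.Work.MP_3242df_tp.Def

/-!
# Block TR (typed by helper66): the density of the product functions
-/

open MeasureTheory Matrix Finset

namespace Pool.Agent.Work.MP_3242df_tp

/-- the integral of a product function on `ℝ ^ 3` -/
theorem TR.int_prod (f : Fin 3 → ℝ → ℝ) :
    ∫ x : EuclideanSpace ℝ (Fin 3), ∏ d, f d (x d) = ∏ d, ∫ y, f d y := by
  rw [← integral_fintype_prod_volume_eq_prod,
    ← (PiLp.volume_preserving_toLp (Fin 3)).integral_comp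
      (MeasurableEquiv.toLp 2 _).measurableEmbedding]

theorem TR.density {n : Fin 3 → ℕ} (u : ∀ d : Fin 3, Fin (n d) → ℝ → ℂ)
    (x : EuclideanSpace ℝ (Fin 3)) :
    ∑ a, ‖prodFun u a x‖ ^ 2 = ∏ d, ∑ i, ‖u d i (x d)‖ ^ 2 := by
  rw [Finset.prod_univ_sum, Fintype.piFinset_univ]
  refine Finset.sum_congr rfl fun a _ => ?_
  unfold prodFun
  rw [norm_prod, ← Finset.prod_pow]

theorem p_TR : S_TR := by
  intro n u _
  have h1 : ∀ x : EuclideanSpace ℝ (Fin 3), (∑ a, ‖prodFun u a x‖ ^ 2) ^ ((5 : ℝ) / 3) =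
      ∏ d, (∑ i, ‖u d i (x d)‖ ^ 2) ^ ((5 : ℝ) / 3) := by
    intro x
    rw [TR.density, Real.finset_prod_rpow]
    intro d _
    exact Finset.sum_nonneg fun i _ => sq_nonneg _
  simp_rw [h1]
  rw [TR.int_prod (fun d y => (∑ i, ‖u d i y‖ ^ 2) ^ ((5 : ℝ) / 3)), Fin.prod_univ_three]

end Pool.Agent.Work.MP_3242df_tp
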