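import Pool.Agent.Work.MP_3242df_tp.Def

/-!
# TS: the scalar inequality
-/

namespace Pool.Agent.Work.MP_3242df_tp

theorem ts_poly (z : ℝ) (h1 : 1 ≤ z) (h6 : z ≤ 6) :
    4 * (1369 / 500 : ℝ) ^ 3 ≤
      27 * (57 / 25 + 3 / 50 * z ^ 2) ^ 2 * (16141 / 25000 - 4077 / 50000 * z) := by
  have e6 : 0 ≤ 6 - z := by linarith
  have e0 : 0 ≤ z := by linarith
  have s : 0 ≤ (z - 8 / 5) ^ 2 := sq_nonneg _
  have a1 : 0 ≤ (z - 8 / 5) ^ 2 * (6 - z) := mul_nonneg s e6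
  have a2 : 0 ≤ (z - 8 / 5) ^ 2 * (6 - z) * z := mul_nonneg a1 e0
  have a3 : 0 ≤ (z - 8 / 5) ^ 2 * (6 - z) * z ^ 2 := mul_nonneg a1 (by positivity)
  nlinarith [a1, a2, a3, s, e6, h1]

theorem ts_main (D G y b : ℝ) (hD : 0 < D) (hb : 0 < b) (hy : 0 ≤ y)
    (h : 4 * b ^ 3 ≤ 27 * D ^ 2 * G) : 0 ≤ D * y ^ 3 - b * y ^ 2 + G := by
  have h1 : 0 ≤ (3 * D * y - 2 * b) ^ 2 * (3 * D * y + b) := by positivity
  have h2 : (3 * D * y - 2 * b) ^ 2 * (3 * D * y + b) =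
      27 * D ^ 2 * (D * y ^ 3 - b * y ^ 2) + 4 * b ^ 3 := by ring
  have h3 : 0 ≤ 27 * D ^ 2 * (D * y ^ 3 - b * y ^ 2 + G) := by nlinarith
  exact nonneg_of_mul_nonneg_right h3 (by positivity)

theorem p_TS : S_TS := by
  intro r w hr hrw hw
  rcases hr.eq_or_lt with rfl | hr0
  · have hw0 : w = 0 := by linarith
    subst hw0
    rw [Real.zero_rpow (by norm_num)]
    norm_num
  · set z : ℝ := w / r with hz
    have hwz : w = z * r := by rw [hz, div_mul_cancel₀ _ hr0.ne']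
    have h1 : 1 ≤ z := by rw [hz, le_div_iff₀ hr0]; linarith
    have h6 : z ≤ 6 := by rw [hz, div_le_iff₀ hr0]; linarith
    set y : ℝ := r ^ ((1 : ℝ) / 3) with hy
    have hy0 : 0 < y := Real.rpow_pos_of_pos hr0 _
    have hy3 : r = y ^ 3 := by
      rw [hy, ← Real.rpow_natCast, ← Real.rpow_mul hr]
      norm_num
    have hy5 : r ^ ((5 : ℝ) / 3) = y ^ 5 := by
      rw [hy, ← Real.rpow_natCast, ← Real.rpow_mul hr]
      norm_num
    have key := ts_main (57 / 25 + 3 / 50 * z ^ 2) (16141 / 25000 - 4077 / 50000 * z) y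
      (1369 / 500) (by positivity) (by norm_num) hy0.le (ts_poly z h1 h6)
    rw [hy5, hwz, hy3]
    have h2 : 0 ≤ y ^ 3 * ((57 / 25 + 3 / 50 * z ^ 2) * y ^ 3 - 1369 / 500 * y ^ 2 +
        (16141 / 25000 - 4077 / 50000 * z)) := mul_nonneg (by positivity) key
    nlinarith [h2]

end Pool.Agent.Work.MP_3242df_tp
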