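import Mathlib

/-!
# Kinetic energy of tensor products: definitions and blocks

Constants: `κ = 10/3`, `g0 = 57/25`, `g1 = 3/50`, `α = 16141/25000`, `β = 4077/50000`, `b = 1369/500`.
-/

open MeasureTheory Matrix Finset

open scoped ComplexOrder

namespace Pool.Agent.Work.MP_3242df_tp

/-- `N x N` complex matrices -/
abbrev Mat (N : ℕ) := Matrix (Fin N) (Fin N) ℂ

/-- `|v| ^ 2` -/
noncomputable def nsq {N : ℕ} (v : Fin N → ℂ) : ℝ := ∑ i, ‖v i‖ ^ 2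

/-- the real part of `⟨v, A v⟩` -/
noncomputable def qf {N : ℕ} (A : Mat N) (v : Fin N → ℂ) : ℝ := (star v ⬝ᵥ (A *ᵥ v)).re

/-- `v v^*` -/
noncomputable def outer {N : ℕ} (v : Fin N → ℂ) : Mat N := Matrix.of fun i j => v i * star (v j)

/-- `W = (1 - (10/3) t ^ 2)⁻¹` -/
noncomputable def WW {N : ℕ} (t : Mat N) : Mat N := (1 - (10 / 3 : ℂ) • (t * t))⁻¹

/-- `X = g0 t + g1 t W` -/
noncomputable def XX {N : ℕ} (t : Mat N) : Mat N := (57 / 25 : ℂ) • t + (3 / 50 : ℂ) • (t * WW t)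

/-- `Ψ = (α - 2 g0 g1 / κ) t + (g0 ^ 2 / 3) t ^ 3 + (g1 ^ 2 / (2 κ)) t W` -/
noncomputable def PP {N : ℕ} (t : Mat N) : Mat N :=
  (14089 / 25000 : ℂ) • t + (1083 / 625 : ℂ) • (t * t * t) + (27 / 50000 : ℂ) • (t * WW t)

/-- `- 1/2 ≤ t ≤ 1/2` -/
structure Half {N : ℕ} (t : Mat N) : Prop where
  herm : t.IsHermitian
  le : ((1 / 2 : ℂ) • (1 : Mat N) - t).PosSemidef
  ge : ((1 / 2 : ℂ) • (1 : Mat N) + t).PosSemidef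

/-- TW: the matrix `W`. -/
def S_TW : Prop := ∀ (N : ℕ) (t : Mat N), Half t →
  (1 - (10 / 3 : ℂ) • (t * t)) * WW t = 1 ∧ WW t * (1 - (10 / 3 : ℂ) • (t * t)) = 1 ∧
    (WW t).IsHermitian ∧ t * WW t = WW t * t ∧
    ∀ v : Fin N → ℂ, nsq v ≤ qf (WW t) v ∧ qf (WW t) v ≤ 6 * nsq v

/-- TS: the scalar inequality. -/
def S_TS : Prop := ∀ r w : ℝ, 0 ≤ r → r ≤ w → w ≤ 6 * r →
  1369 / 500 * r ^ ((5 : ℝ) / 3) ≤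
    57 / 25 * r ^ 2 + 3 / 50 * w ^ 2 + 16141 / 25000 * r - 4077 / 50000 * w

/-- the derivative of `⟨v, X v⟩ + Tr Ψ` -/
noncomputable def DH {N : ℕ} (t : Mat N) (v v' : Fin N → ℂ) : ℝ :=
  2 * (star v' ⬝ᵥ (XX t *ᵥ v)).re + 57 / 25 * nsq v ^ 2 +
    3 / 50 * (qf (WW t) v ^ 2 + 10 / 3 * qf (t * WW t) v ^ 2) +
    16141 / 25000 * nsq v - 4077 / 50000 * qf (WW t) v + nsq (XX t *ᵥ v)

/-- TDW: the derivative of `W`. -/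
def S_TDW : Prop := ∀ (N : ℕ) (t : ℝ → Mat N) (s : Mat N) (x : ℝ), Half (t x) →
  (∀ i j, HasDerivAt (fun y => t y i j) (s i j) x) →
  ∀ i j, HasDerivAt (fun y => WW (t y) i j)
    ((WW (t x) * ((10 / 3 : ℂ) • (s * t x + t x * s)) * WW (t x)) i j) x

/-- TD: the derivative of `⟨v, X v⟩ + Tr Ψ`. -/
def S_TD : Prop := ∀ (N : ℕ) (u u' : ℝ → Fin N → ℂ) (t : ℝ → Mat N) (x : ℝ), Half (t x) →
  (∀ i, HasDerivAt (fun y => u y i) (u' x i) x) →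
  (∀ i j, HasDerivAt (fun y => t y i j) (outer (u x) i j) x) →
  HasDerivAt (fun y => qf (XX (t y)) (u y) + (Matrix.trace (PP (t y))).re)
    (DH (t x) (u x) (u' x)) x

/-- TP: the pointwise inequality. -/
def S_TP : Prop := ∀ (N : ℕ) (t : Mat N) (v v' : Fin N → ℂ), Half t →
  1369 / 500 * nsq v ^ ((5 : ℝ) / 3) ≤ nsq v' + DH t v v'

/-- TE: the values of `Tr Ψ` at the ends. -/
def S_TE : Prop := ∀ N : ℕ,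
  (Matrix.trace (PP ((1 / 2 : ℂ) • (1 : Mat N)))).re = N / 2 ∧
    (Matrix.trace (PP (-(1 / 2 : ℂ) • (1 : Mat N)))).re = -(N / 2)

/-- T1: the inequality on the line. -/
def S_T1 : Prop := ∀ (N : ℕ) (R : ℝ) (u u' : ℝ → Fin N → ℂ), 0 < R →
  (∀ x i, HasDerivAt (fun y => u y i) (u' x i) x) → Continuous u' → (∀ x, R ≤ |x| → u x = 0) →
  (∀ i j, ∫ x, u x i * star (u x j) = if i = j then (1 : ℂ) else 0) →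
  1369 / 500 * ∫ x, nsq (u x) ^ ((5 : ℝ) / 3) ≤ (∫ x, nsq (u' x)) + N

/-- orthonormal families in `C_c^1(ℝ; ℂ)` -/
structure Fam {N : ℕ} (u : Fin N → ℝ → ℂ) : Prop where
  smooth : ∀ i, ContDiff ℝ 1 (u i)
  supp : ∀ i, HasCompactSupport (u i)
  orth : ∀ i j, ∫ x, (starRingEnd ℂ) (u i x) * u j x = if i = j then (1 : ℂ) else 0

/-- T2: the scale invariant inequality on the line. -/
def S_T2 : Prop := ∀ (N : ℕ) (u : Fin N → ℝ → ℂ), Fam u →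
  76 / 25 * (∫ x, (∑ i, ‖u i x‖ ^ 2) ^ ((5 : ℝ) / 3)) ^ 3 ≤
    (N : ℝ) ^ 2 * ∑ i, ∫ x, ‖deriv (u i) x‖ ^ 2

/-- the product functions on `ℝ ^ 3` -/
noncomputable def prodFun {n : Fin 3 → ℕ} (u : ∀ d : Fin 3, Fin (n d) → ℝ → ℂ)
    (a : ∀ d : Fin 3, Fin (n d)) (x : EuclideanSpace ℝ (Fin 3)) : ℂ := ∏ d, u d (a d) (x d)

/-- TA: the product functions are `C_c^1` and orthonormal. -/
def S_TA : Prop := ∀ (n : Fin 3 → ℕ) (u : ∀ d : Fin 3, Fin (n d) → ℝ → ℂ), (∀ d, Fam (u d)) →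
  (∀ a, ContDiff ℝ 1 (prodFun u a) ∧ HasCompactSupport (prodFun u a)) ∧
    ∀ a b, ∫ x, (starRingEnd ℂ) (prodFun u a x) * prodFun u b x = if a = b then (1 : ℂ) else 0

/-- TK: the kinetic energy of the product functions. -/
def S_TK : Prop := ∀ (n : Fin 3 → ℕ) (u : ∀ d : Fin 3, Fin (n d) → ℝ → ℂ), (∀ d, Fam (u d)) →
  (∑ a, ∫ x, ∑ j : Fin 3, ‖fderiv ℝ (prodFun u a) x (EuclideanSpace.single j (1 : ℝ))‖ ^ 2) =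
    (∑ i, ∫ x, ‖deriv (u 0 i) x‖ ^ 2) * n 1 * n 2 + (∑ i, ∫ x, ‖deriv (u 1 i) x‖ ^ 2) * n 0 * n 2 +
      (∑ i, ∫ x, ‖deriv (u 2 i) x‖ ^ 2) * n 0 * n 1

/-- TR: the density of the product functions. -/
def S_TR : Prop := ∀ (n : Fin 3 → ℕ) (u : ∀ d : Fin 3, Fin (n d) → ℝ → ℂ), (∀ d, Fam (u d)) →
  (∫ x, (∑ a, ‖prodFun u a x‖ ^ 2) ^ ((5 : ℝ) / 3)) =
    (∫ x, (∑ i, ‖u 0 i x‖ ^ 2) ^ ((5 : ℝ) / 3)) * (∫ x, (∑ i, ‖u 1 i x‖ ^ 2) ^ ((5 : ℝ) / 3)) *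
      (∫ x, (∑ i, ‖u 2 i x‖ ^ 2) ^ ((5 : ℝ) / 3))

/-- TM: the arithmetic of the final step. -/
def S_TM : Prop := ∀ (N1 N2 N3 : ℕ) (T1 T2 T3 I1 I2 I3 : ℝ), 0 ≤ T1 → 0 ≤ T2 → 0 ≤ T3 → 0 ≤ I1 →
  0 ≤ I2 → 0 ≤ I3 → (N1 = 0 → I1 = 0) → (N2 = 0 → I2 = 0) → (N3 = 0 → I3 = 0) →
  76 / 25 * I1 ^ 3 ≤ (N1 : ℝ) ^ 2 * T1 → 76 / 25 * I2 ^ 3 ≤ (N2 : ℝ) ^ 2 * T2 →
  76 / 25 * I3 ^ 3 ≤ (N3 : ℝ) ^ 2 * T3 →
  228 / 25 * (I1 * I2 * I3) ≤ T1 * N2 * N3 + T2 * N1 * N3 + T3 * N1 * N2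

/-- TC: the constant. -/
def S_TC : Prop := (3 / 5 : ℝ) * (6 * Real.pi ^ 2) ^ ((2 : ℝ) / 3) < 228 / 25

/-- TF: the theorem on `ℝ ^ 3`. -/
def S_TF : Prop := ∀ (n : Fin 3 → ℕ) (u : ∀ d : Fin 3, Fin (n d) → ℝ → ℂ), (∀ d, Fam (u d)) →
  228 / 25 * ∫ x, (∑ a, ‖prodFun u a x‖ ^ 2) ^ ((5 : ℝ) / 3) ≤
    ∑ a, ∫ x, ∑ j : Fin 3, ‖fderiv ℝ (prodFun u a) x (EuclideanSpace.single j (1 : ℝ))‖ ^ 2

end Pool.Agent.Work.MP_3242df_tp
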