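import Pool.Agent.Work.MP_3242df_tp.Def

set_option autoImplicit false

namespace Pool.Agent.Work.MP_3242df_tp

namespace TMaux

lemma amgm (x y z : ℝ) (hx : 0 ≤ x) (hy : 0 ≤ y) (hz : 0 ≤ z) :
    3 * (x * y * z) ≤ x ^ 3 + y ^ 3 + z ^ 3 := by
  have h : x ^ 3 + y ^ 3 + z ^ 3 - 3 * (x * y * z)
      = (x + y + z) * ((x - y) ^ 2 + (y - z) ^ 2 + (z - x) ^ 2) / 2 := by ring
  have h2 : 0 ≤ (x + y + z) * ((x - y) ^ 2 + (y - z) ^ 2 + (z - x) ^ 2) / 2 := by positivity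
  linarith

end TMaux

theorem p_TM : S_TM := by
  intro N1 N2 N3 T1 T2 T3 I1 I2 I3 hT1 hT2 hT3 hI1 hI2 hI3 z1 z2 z3 h1 h2 h3
  have hR : 0 ≤ T1 * N2 * N3 + T2 * N1 * N3 + T3 * N1 * N2 := by positivity
  rcases Nat.eq_zero_or_pos N1 with e1 | p1
  · rw [z1 e1]; simpa using hR
  rcases Nat.eq_zero_or_pos N2 with e2 | p2
  · rw [z2 e2]; simpa using hR
  rcases Nat.eq_zero_or_pos N3 with e3 | p3
  · rw [z3 e3]; simpa using hR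
  have q1 : (0 : ℝ) < N1 := by exact_mod_cast p1
  have q2 : (0 : ℝ) < N2 := by exact_mod_cast p2
  have q3 : (0 : ℝ) < N3 := by exact_mod_cast p3
  obtain ⟨x, hx⟩ : ∃ x : ℝ, I1 = N1 * x := ⟨I1 / N1, by field_simp⟩
  obtain ⟨y, hy⟩ : ∃ y : ℝ, I2 = N2 * y := ⟨I2 / N2, by field_simp⟩
  obtain ⟨z, hz⟩ : ∃ z : ℝ, I3 = N3 * z := ⟨I3 / N3, by field_simp⟩
  have hx0 : 0 ≤ x := by
    rw [hx] at hI1; exact nonneg_of_mul_nonneg_right hI1 q1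
  have hy0 : 0 ≤ y := by
    rw [hy] at hI2; exact nonneg_of_mul_nonneg_right hI2 q2
  have hz0 : 0 ≤ z := by
    rw [hz] at hI3; exact nonneg_of_mul_nonneg_right hI3 q3
  have k1 : 76 / 25 * (N1 * x ^ 3) ≤ T1 := by
    rw [hx] at h1
    have : (N1 : ℝ) ^ 2 * (76 / 25 * (N1 * x ^ 3)) ≤ (N1 : ℝ) ^ 2 * T1 := by
      calc (N1 : ℝ) ^ 2 * (76 / 25 * (N1 * x ^ 3)) = 76 / 25 * (N1 * x) ^ 3 := by ring
        _ ≤ _ := h1
    exact le_of_mul_le_mul_left this (by positivity)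
  have k2 : 76 / 25 * (N2 * y ^ 3) ≤ T2 := by
    rw [hy] at h2
    have : (N2 : ℝ) ^ 2 * (76 / 25 * (N2 * y ^ 3)) ≤ (N2 : ℝ) ^ 2 * T2 := by
      calc (N2 : ℝ) ^ 2 * (76 / 25 * (N2 * y ^ 3)) = 76 / 25 * (N2 * y) ^ 3 := by ring
        _ ≤ _ := h2
    exact le_of_mul_le_mul_left this (by positivity)
  have k3 : 76 / 25 * (N3 * z ^ 3) ≤ T3 := by
    rw [hz] at h3
    have : (N3 : ℝ) ^ 2 * (76 / 25 * (N3 * z ^ 3)) ≤ (N3 : ℝ) ^ 2 * T3 := by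
      calc (N3 : ℝ) ^ 2 * (76 / 25 * (N3 * z ^ 3)) = 76 / 25 * (N3 * z) ^ 3 := by ring
        _ ≤ _ := h3
    exact le_of_mul_le_mul_left this (by positivity)
  have m1 : 76 / 25 * (N1 * x ^ 3) * (N2 * N3) ≤ T1 * (N2 * N3) :=
    mul_le_mul_of_nonneg_right k1 (by positivity)
  have m2 : 76 / 25 * (N2 * y ^ 3) * (N1 * N3) ≤ T2 * (N1 * N3) :=
    mul_le_mul_of_nonneg_right k2 (by positivity)
  have m3 : 76 / 25 * (N3 * z ^ 3) * (N1 * N2) ≤ T3 * (N1 * N2) :=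
    mul_le_mul_of_nonneg_right k3 (by positivity)
  have am := TMaux.amgm x y z hx0 hy0 hz0
  have am2 : (N1 * N2 * N3 : ℝ) * (76 / 25) * (3 * (x * y * z)) ≤
      (N1 * N2 * N3 : ℝ) * (76 / 25) * (x ^ 3 + y ^ 3 + z ^ 3) :=
    mul_le_mul_of_nonneg_left am (by positivity)
  rw [hx, hy, hz]
  nlinarith [m1, m2, m3, am2]

end Pool.Agent.Work.MP_3242df_tp
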