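import Pool.Agent.Work.MP_3242df_tp.Def

/-! Block TW (helper45): the matrix W. -/

set_option autoImplicit false

open MeasureTheory Matrix Finset

open scoped ComplexOrder

namespace Pool.Agent.Work.MP_3242df_tp

namespace TW

variable {N : ℕ}

theorem quarter_psd {t : Mat N} (h : Half t) : ((1 / 4 : ℂ) • (1 : Mat N) - t * t).PosSemidef := by
  set A : Mat N := (1 / 2 : ℂ) • (1 : Mat N) - t with hA
  set B : Mat N := (1 / 2 : ℂ) • (1 : Mat N) + t with hB
  have e : (1 / 4 : ℂ) • (1 : Mat N) - t * t = A * B * A + B * A * B := by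
    rw [hA, hB]
    simp only [mul_add, add_mul, mul_sub, sub_mul, smul_mul_assoc, mul_smul_comm, one_mul, mul_one,
      smul_add, smul_sub, smul_smul]
    module
  rw [e]
  have h1 : (A * B * A).PosSemidef := by
    have := h.ge.conjTranspose_mul_mul_same A
    rwa [h.le.isHermitian.eq] at this
  have h2 : (B * A * B).PosSemidef := by
    have := h.le.conjTranspose_mul_mul_same B
    rwa [h.ge.isHermitian.eq] at this
  exact h1.add h2

theorem m_eq (t : Mat N) : (1 - (10 / 3 : ℂ) • (t * t)) =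
    (1 / 6 : ℂ) • (1 : Mat N) + (10 / 3 : ℂ) • ((1 / 4 : ℂ) • (1 : Mat N) - t * t) := by
  module

theorem m_pos {t : Mat N} (h : Half t) : (1 - (10 / 3 : ℂ) • (t * t)).PosDef := by
  rw [m_eq]
  have h1 : ((1 / 6 : ℂ) • (1 : Mat N)).PosDef := by
    have : (0 : ℂ) < 1 / 6 := by
      rw [show (1 / 6 : ℂ) = ((1 / 6 : ℝ) : ℂ) by push_cast; rfl]
      exact_mod_cast (by norm_num : (0 : ℝ) < 1 / 6)
    exact Matrix.PosDef.one.smul this
  have h2 : ((10 / 3 : ℂ) • ((1 / 4 : ℂ) • (1 : Mat N) - t * t)).PosSemidef := by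
    have : (0 : ℂ) ≤ 10 / 3 := by
      rw [show (10 / 3 : ℂ) = ((10 / 3 : ℝ) : ℂ) by push_cast; rfl]
      exact_mod_cast (by norm_num : (0 : ℝ) ≤ 10 / 3)
    exact (quarter_psd h).smul this
  exact h1.add_posSemidef h2

theorem qf_nonneg {A : Mat N} (h : A.PosSemidef) (v : Fin N → ℂ) : 0 ≤ qf A v := by
  unfold qf
  have := h.dotProduct_mulVec_nonneg v
  exact (Complex.le_def.mp this).1

theorem qf_sub (A B : Mat N) (v : Fin N → ℂ) : qf (A - B) v = qf A v - qf B v := by
  unfold qf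
  rw [Matrix.sub_mulVec, dotProduct_sub, Complex.sub_re]

theorem qf_one (v : Fin N → ℂ) : qf (1 : Mat N) v = nsq v := by
  unfold qf nsq
  rw [Matrix.one_mulVec, dotProduct, Complex.re_sum]
  refine Finset.sum_congr rfl fun i _ => ?_
  rw [Pi.star_apply, Complex.star_def, Complex.conj_mul']
  norm_cast

theorem qf_smul (r : ℝ) (A : Mat N) (v : Fin N → ℂ) : qf ((r : ℂ) • A) v = r * qf A v := by
  unfold qf
  rw [Matrix.smul_mulVec, dotProduct_smul, smul_eq_mul, Complex.re_ofReal_mul]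

end TW

open TW in
theorem p_TW : S_TW := by
  intro N t h
  set M : Mat N := 1 - (10 / 3 : ℂ) • (t * t) with hM
  have hW : WW t = M⁻¹ := rfl
  have hMp : M.PosDef := m_pos h
  have hu : IsUnit M.det := (Matrix.isUnit_iff_isUnit_det M).mp hMp.isUnit
  have e1 : M * WW t = 1 := by rw [hW]; exact Matrix.mul_nonsing_inv M hu
  have e2 : WW t * M = 1 := by rw [hW]; exact Matrix.nonsing_inv_mul M hu
  have hH : (WW t).IsHermitian := by rw [hW]; exact hMp.isHermitian.inv
  have hc : M * t = t * M := by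
    rw [hM, sub_mul, mul_sub, one_mul, mul_one, smul_mul_assoc, mul_smul_comm, mul_assoc]
  have e3 : t * WW t = WW t * t := by
    calc t * WW t = (WW t * M) * t * WW t := by rw [e2, one_mul]
      _ = WW t * (M * t) * WW t := by rw [mul_assoc (WW t) M t]
      _ = WW t * (t * M) * WW t := by rw [hc]
      _ = WW t * t * (M * WW t) := by simp only [mul_assoc]
      _ = WW t * t := by rw [e1, mul_one]
  refine ⟨e1, e2, hH, e3, ?_⟩
  have hWp : (WW t).PosSemidef := by rw [hW]; exact hMp.inv.posSemidef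
  have k0 : (0 : ℂ) ≤ 10 / 3 := by
    rw [show (10 / 3 : ℂ) = ((10 / 3 : ℝ) : ℂ) by push_cast; rfl]
    exact_mod_cast (by norm_num : (0 : ℝ) ≤ 10 / 3)
  have k1 : (0 : ℂ) ≤ 1 / 6 := by
    rw [show (1 / 6 : ℂ) = ((1 / 6 : ℝ) : ℂ) by push_cast; rfl]
    exact_mod_cast (by norm_num : (0 : ℝ) ≤ 1 / 6)
  have k2 : (0 : ℂ) ≤ 20 := by
    rw [show (20 : ℂ) = ((20 : ℝ) : ℂ) by push_cast; rfl]
    exact_mod_cast (by norm_num : (0 : ℝ) ≤ 20)
  set P : Mat N := (1 / 4 : ℂ) • (1 : Mat N) - t * t with hP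
  have hPp : P.PosSemidef := quarter_psd h
  have hMP : M = (1 / 6 : ℂ) • (1 : Mat N) + (10 / 3 : ℂ) • P := m_eq t
  have l1 : WW t - 1 = (10 / 3 : ℂ) • (t * WW t * t) := by
    have a1 : t * WW t * t = WW t * (t * t) := by rw [e3, mul_assoc]
    have a2 : (10 / 3 : ℂ) • (t * t) = 1 - M := by rw [hM]; abel
    rw [a1, ← mul_smul_comm, a2, mul_sub, mul_one, e2]
  have l2 : (6 : ℂ) • (1 : Mat N) - WW t =
      (20 : ℂ) • (WW t * ((1 / 6 : ℂ) • P + (10 / 3 : ℂ) • (P * P)) * WW t) := by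
    have a1 : (1 / 6 : ℂ) • P + (10 / 3 : ℂ) • (P * P) = P * M := by
      rw [hMP, mul_add, mul_smul_comm, mul_smul_comm, mul_one]
    have a2 : (20 : ℂ) • P = (6 : ℂ) • M - 1 := by
      rw [hMP]
      module
    rw [a1, ← mul_assoc, mul_assoc (WW t * P), e1, mul_one, ← mul_smul_comm, a2, mul_sub,
      mul_smul_comm, e2, mul_one]
  have p1 : (WW t - 1).PosSemidef := by
    rw [l1]
    refine Matrix.PosSemidef.smul ?_ k0
    have := hWp.conjTranspose_mul_mul_same t
    rwa [h.herm.eq] at this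
  have p2 : ((6 : ℂ) • (1 : Mat N) - WW t).PosSemidef := by
    rw [l2]
    refine Matrix.PosSemidef.smul ?_ k2
    have hPP : (P * P).PosSemidef := by
      have := Matrix.posSemidef_conjTranspose_mul_self P
      rwa [hPp.isHermitian.eq] at this
    have := ((hPp.smul k1).add (hPP.smul k0)).conjTranspose_mul_mul_same (WW t)
    rwa [hH.eq] at this
  intro v
  have q1 := qf_nonneg p1 v
  have q2 := qf_nonneg p2 v
  rw [qf_sub, qf_one] at q1
  rw [qf_sub, show (6 : ℂ) = ((6 : ℝ) : ℂ) by push_cast; rfl, qf_smul, qf_one] at q2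
  exact ⟨by linarith, by linarith⟩

end Pool.Agent.Work.MP_3242df_tp
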